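import Mathlib

set_option autoImplicit false
set_option linter.all false

open scoped BigOperators Classical IsMulCommutative

noncomputable section

namespace Pool.Agent.Zk67.C3

variable {p : ℕ} [hp : Fact p.Prime] {G U Ω : Type} [Group G] [Finite G] [Group U] [Finite U]
  [Fintype Ω] [MulAction G Ω] {m : (Ω → U) →* G}

theorem eq_one_of_pow {V : Type} [Group V] [Finite V] {C : Subgroup V} (hC : ¬ p ∣ Nat.card C)
    {k : V} (hk : k ∈ C) {n : ℕ} (h : k ^ p ^ n = 1) : k = 1 := by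
  have h1 : orderOf k ∣ p ^ n := orderOf_dvd_of_pow_eq_one h
  have h2 : orderOf k ∣ Nat.card C := Subgroup.orderOf_dvd_natCard C hk
  have h3 : Nat.Coprime (p ^ n) (Nat.card C) :=
    Nat.Coprime.pow_left n ((Nat.Prime.coprime_iff_not_dvd hp.out).mpr hC)
  have h4 : orderOf k = 1 := Nat.eq_one_of_dvd_coprimes h3 h1 h2
  exact orderOf_eq_one_iff.mp h4

theorem card_range (m : (Ω → U) →* G) (hU : ¬ p ∣ Nat.card U) : ¬ p ∣ Nat.card m.range := by
  intro hd
  have h1 : Nat.card m.range ∣ Nat.card (Ω → U) := Subgroup.card_range_dvd m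
  rw [Nat.card_fun] at h1
  exact hU (hp.out.dvd_of_dvd_pow (hd.trans h1))

/-- the inclusion of the functions with values in the center -/
def cz (Ω U : Type) [Group U] : (Ω → Subgroup.center U) →* (Ω → U) where
  toFun c := fun ω => (c ω : U)
  map_one' := rfl
  map_mul' := fun _ _ => rfl

@[simp] theorem cz_apply (c : Ω → Subgroup.center U) (ω : Ω) : cz Ω U c ω = (c ω : U) := rfl

theorem pow_cardU (c : Subgroup.center U) : c ^ Nat.card U = 1 :=
  Subtype.ext (by push_cast; exact pow_card_eq_one')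

theorem coprime_P (hU : ¬ p ∣ Nat.card U) (P : Sylow p G) : Nat.Coprime (Nat.card P) (Nat.card U) := by
  obtain ⟨n, hn⟩ := IsPGroup.iff_card.mp P.2
  have : Nat.card P = p ^ n := hn
  rw [this]
  exact Nat.Coprime.pow_left n ((Nat.Prime.coprime_iff_not_dvd hp.out).mpr hU)

omit [Finite U] [Fintype Ω] in
/-- the functions which are constant on the orbits normalize `P` -/
theorem b1 {P : Sylow p G}
    (heq : ∀ x ∈ P, ∀ u : Ω → U, x * m u * x⁻¹ = m (fun ω => u (x⁻¹ • ω))) (w : Ω → U)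
    (hw : ∀ x ∈ P, ∀ ω, w (x • ω) = w ω) :
    m w ∈ Subgroup.normalizer ((P : Subgroup G) : Set G) := by
  have h1 : ∀ x ∈ P, x * m w * x⁻¹ = m w := by
    intro x hx
    rw [heq x hx]
    congr 1
    funext ω
    exact hw x⁻¹ ((P : Subgroup G).inv_mem hx) ω
  refine Subgroup.mem_normalizer_fintype fun x hx => ?_
  have h2 := h1 x hx
  have h3 : m w * x * (m w)⁻¹ = x := by
    have h4 : x * m w = m w * x := by
      rw [← mul_inv_eq_iff_eq_mul]
      exact h2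
    rw [← h4, mul_inv_cancel_right]
  rw [h3]
  exact hx

/-- an element normalizing `P` comes from a function which is constant on the orbits of `P` -/
theorem b2 (hnor : m.range.Normal) (hU : ¬ p ∣ Nat.card U) {P : Sylow p G}
    (heq : ∀ x ∈ P, ∀ u : Ω → U, x * m u * x⁻¹ = m (fun ω => u (x⁻¹ • ω)))
    (hker : ∀ u : Ω → U, m u = 1 → ∀ ω, u ω ∈ Subgroup.center U)
    (u : Ω → U) (hu : m u ∈ Subgroup.normalizer ((P : Subgroup G) : Set G)) :
    ∃ w : Ω → U, m w = m u ∧ ∀ y ∈ P, ∀ ω, w (y • ω) = w ω := by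
  haveI := hnor
  haveI : Fintype P := Fintype.ofFinite P
  have key : ∀ x ∈ P, m (fun ω => u (x⁻¹ • ω)) = m u := by
    intro x hx
    have h1 : x * m u * x⁻¹ = m (fun ω => u (x⁻¹ • ω)) := heq x hx u
    have h2 : x * m u * x⁻¹ * (m u)⁻¹ ∈ P := by
      have h3 : m u * x⁻¹ * (m u)⁻¹ ∈ P :=
        (Subgroup.mem_normalizer_iff.mp hu x⁻¹).mp ((P : Subgroup G).inv_mem hx)
      have e : x * m u * x⁻¹ * (m u)⁻¹ = x * (m u * x⁻¹ * (m u)⁻¹) := by group
      rw [e]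
      exact (P : Subgroup G).mul_mem hx h3
    have h4 : x * m u * x⁻¹ * (m u)⁻¹ ∈ m.range :=
      m.range.mul_mem (hnor.conj_mem _ ⟨u, rfl⟩ x) (m.range.inv_mem ⟨u, rfl⟩)
    obtain ⟨i, hi⟩ := P.2 ⟨_, h2⟩
    have hi' : (x * m u * x⁻¹ * (m u)⁻¹) ^ p ^ i = 1 := by
      have := congrArg Subtype.val hi
      simpa using this
    have h5 := eq_one_of_pow (C := m.range) (card_range m hU) h4 hi'
    rw [← h1]
    exact mul_inv_eq_one.mp h5
  have kz : ∀ (x : P) (ω : Ω), u ((x : G)⁻¹ • ω) * (u ω)⁻¹ ∈ Subgroup.center U := by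
    intro x ω
    have h1 : m (fun ω => u ((x : G)⁻¹ • ω) * (u ω)⁻¹) = 1 := by
      have e : (fun ω => u ((x : G)⁻¹ • ω) * (u ω)⁻¹) = (fun ω => u ((x : G)⁻¹ • ω)) * u⁻¹ := rfl
      rw [e, map_mul, map_inv, key x x.2, mul_inv_cancel]
    exact hker _ h1 ω
  obtain ⟨k, hk⟩ : ∃ k : P → Ω → Subgroup.center U, ∀ x ω, (k x ω : U) = u ((x : G)⁻¹ • ω) * (u ω)⁻¹ :=
    ⟨fun x ω => ⟨_, kz x ω⟩, fun _ _ => rfl⟩
  have hk1 : ∀ x, m (cz Ω U (k x)) = 1 := by
    intro x
    have e : cz Ω U (k x) = (fun ω => u ((x : G)⁻¹ • ω)) * u⁻¹ := by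
      funext ω
      exact hk x ω
    rw [e, map_mul, map_inv, key x x.2, mul_inv_cancel]
  obtain ⟨K, hK⟩ : ∃ K : Ω → Subgroup.center U, K = ∏ x : P, k x := ⟨_, rfl⟩
  have hK1 : m (cz Ω U K) = 1 := by
    have h1 : K ∈ (m.comp (cz Ω U)).ker := by
      rw [hK]
      exact Subgroup.prod_mem _ fun x _ => hk1 x
    exact h1
  obtain ⟨a, ha⟩ : ∃ a : ℤ, ∀ c : Subgroup.center U, c ^ ((Nat.card P : ℤ) * a) = c := by
    refine ⟨Nat.gcdA (Nat.card P) (Nat.card U), fun c => ?_⟩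
    have h1 := Nat.gcd_eq_gcd_ab (Nat.card P) (Nat.card U)
    rw [(coprime_P hU P : Nat.gcd _ _ = 1)] at h1
    have h2 : (Nat.card P : ℤ) * Nat.gcdA (Nat.card P) (Nat.card U) =
        1 - Nat.card U * Nat.gcdB (Nat.card P) (Nat.card U) := by
      push_cast at h1
      linarith
    rw [h2, zpow_sub, zpow_one, zpow_mul, zpow_natCast, pow_cardU, one_zpow, inv_one, mul_one]
  have hKy : ∀ (y : P) ω, K ((y : G) • ω) = K ω * (k y⁻¹ ω) ^ (-(Nat.card P : ℤ)) := by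
    intro y ω
    have h1 : ∀ x : P, k (y * x) ((y : G) • ω) = k x ω * (k y⁻¹ ω)⁻¹ := by
      intro x
      apply Subtype.ext
      push_cast
      rw [hk, hk, hk]
      have e1 : (((y * x : P) : G))⁻¹ • (y : G) • ω = (x : G)⁻¹ • ω := by
        rw [smul_smul]
        congr 1
        push_cast
        group
      have e2 : (((y⁻¹ : P) : G))⁻¹ • ω = (y : G) • ω := by
        push_cast
        rw [inv_inv]
      rw [e1, e2]
      group
    have h2 : ∏ x : P, k x ((y : G) • ω) = ∏ x : P, k (y * x) ((y : G) • ω) :=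
      (Fintype.prod_equiv (Equiv.mulLeft y) _ _ fun x => rfl).symm
    rw [hK, Finset.prod_apply, Finset.prod_apply, h2]
    simp_rw [h1]
    rw [Finset.prod_mul_distrib, Finset.prod_const, Finset.card_univ, inv_pow, zpow_neg, zpow_natCast,
      Nat.card_eq_fintype_card]
  refine ⟨u * cz Ω U (K ^ a), ?_, ?_⟩
  · rw [map_mul, map_zpow, map_zpow, hK1, one_zpow, mul_one]
  · intro y hy ω
    have h1 := hKy ⟨y, hy⟩ ω
    have h2 : ((K ^ a) (y • ω) : Subgroup.center U) = (K ^ a) ω * (k (⟨y, hy⟩ : P)⁻¹ ω)⁻¹ := by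
      rw [Pi.pow_apply, Pi.pow_apply]
      change K ((⟨y, hy⟩ : P) • ω) ^ a = _
      rw [show (K ((⟨y, hy⟩ : P) • ω)) = _ from h1, mul_zpow, ← zpow_mul, neg_mul, zpow_neg, ha]
    have h3 : u (y • ω) = (k (⟨y, hy⟩ : P)⁻¹ ω : U) * u ω := by
      rw [hk]
      have e2 : (((⟨y, hy⟩ : P)⁻¹ : P) : G)⁻¹ • ω = y • ω := by
        push_cast
        rw [inv_inv]
      rw [e2, inv_mul_cancel_right]
    rw [Pi.mul_apply, Pi.mul_apply, cz_apply, cz_apply, h2, h3]
    push_cast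
    have h4 : ∀ z : Subgroup.center U, ∀ v : U, (z : U) * v = v * z := fun z v =>
      ((Subgroup.mem_center_iff.mp z.2) v).symm
    rw [h4 (k (⟨y, hy⟩ : P)⁻¹ ω) (u ω), mul_assoc]
    congr 1
    rw [h4 (k (⟨y, hy⟩ : P)⁻¹ ω) _, mul_assoc, inv_mul_cancel, mul_one]

end Pool.Agent.Zk67.C3

end
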